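import Pool.Agent.KACG.Slopes

/-!
# S_WEL: the wells of a regular value (squad KACG, block SLOPES)
-/

set_option autoImplicit false

namespace Pool.Agent.KACG.H91

open Filter Topology Set

theorem wel : WelStmt := by
  intro L κ c hL hsm hper hreg
  obtain ⟨a, ha⟩ : ∃ a, κ a ≠ c := by
    by_contra hcon
    push Not at hcon
    have h1 : κ = fun _ => c := funext hcon
    have h2 := hreg 0 (hcon 0)
    rw [h1] at h2
    simp at h2
  have hcont : Continuous κ := hsm.continuous
  have haL : κ (a + L) ≠ c := by rw [hper a]; exact ha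
  have hS : IsCompact {s | s ∈ Set.Icc a (a + L) ∧ κ s = c} := by
    have h1 : IsClosed {s | κ s = c} := isClosed_eq hcont continuous_const
    exact isCompact_Icc.inter_right h1
  have hfin : {s | s ∈ Set.Icc a (a + L) ∧ κ s = c}.Finite := by
    by_contra hinf
    obtain ⟨x, hx, hacc⟩ := Set.Infinite.exists_accPt_of_subset_isCompact hinf hS (Subset.refl _)
    have hd : DifferentiableAt ℝ κ x := hsm.contDiffAt.differentiableAt (by simp)
    have h1 : ∀ᶠ y in 𝓝[≠] x, κ y ≠ c := hd.hasDerivAt.eventually_ne (hreg x hx.2)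
    rw [accPt_iff_frequently] at hacc
    rw [eventually_nhdsWithin_iff] at h1
    obtain ⟨y, hy1, hy2⟩ := (hacc.and_eventually h1).exists
    exact hy2 hy1.1 hy1.2.2
  have hmem : ∀ i : Fin hfin.toFinset.card,
      ((hfin.toFinset.equivFin.symm i : hfin.toFinset) : ℝ) ∈
        {s | s ∈ Set.Icc a (a + L) ∧ κ s = c} := fun i =>
    hfin.mem_toFinset.1 (hfin.toFinset.equivFin.symm i).2
  refine ⟨a, hfin.toFinset.card, fun i => ((hfin.toFinset.equivFin.symm i : hfin.toFinset) : ℝ),
    hL, hsm, hper, ?_, ?_, ?_, ?_, ?_⟩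
  · intro i
    obtain ⟨h1, h2⟩ := hmem i
    refine ⟨lt_of_le_of_ne h1.1 ?_, lt_of_le_of_ne h1.2 ?_⟩
    · intro h
      rw [← h] at h2
      exact ha h2
    · intro h
      rw [h] at h2
      exact haL h2
  · intro i j hij
    exact hfin.toFinset.equivFin.symm.injective (Subtype.ext hij)
  · intro i
    exact (hmem i).2
  · intro i
    exact hreg _ (hmem i).2
  · intro s hs hsc
    refine ⟨hfin.toFinset.equivFin ⟨s, hfin.mem_toFinset.2 ⟨hs, hsc⟩⟩, ?_⟩
    simp

end Pool.Agent.KACG.H91
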